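import Pool.Agent.AT3.Stmts1
import Pool.Agent.Helper25_K9.ADA
import Pool.Agent.Helper25_K9.PRG
import Pool.Agent.Helper11_K9.Base

/-!
# Squad AT3, row RTC: the power map permutes the irreducible characters and respects the blocks
-/

open scoped BigOperators

noncomputable section

namespace Pool.Agent.PP.T3.H23

open Pool.Agent.Helper51_AWC Pool.Agent.Helper79_WRA Pool.Agent.PP Pool.Agent.PP.KF
open Pool.Agent.PP.K9 Pool.Agent.PP.K9.H97 Pool.Agent.PP.H75

attribute [local instance] Ideal.Quotient.field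

section irr

variable {G : Type} [Group G]

/-- a virtual character of norm one which is positive at `1` is irreducible -/
theorem irr_of_virtual [Finite G] {f : G → ℂ} (hf : ∀ x y, f (y * x * y⁻¹) = f x)
    (hm : ∀ η ∈ Irr G, ∃ m : ℤ, ipn f η = m) (h1 : ipn f f = 1) (hp : ∃ d : ℕ, f 1 = d) :
    f ∈ Irr G := by
  classical
  have := Fintype.ofFinite G
  have := Fintype.ofFinite (Irr G)
  have hc : (Fintype.card G : ℂ) ≠ 0 := by exact_mod_cast Fintype.card_ne_zero
  choose m hm using fun χ : Irr G => hm χ χ.2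
  have hm' : ∀ χ : Irr G, ∑ x, f x * (χ : G → ℂ) x⁻¹ = (m χ : ℂ) * Fintype.card G := by
    intro χ
    have h1 : ∑ x, f x * (χ : G → ℂ) x⁻¹ = ∑ x, f x * starRingEnd ℂ ((χ : G → ℂ) x) :=
      Finset.sum_congr rfl fun x _ => by rw [H94.irr_star χ.2]
    rw [h1, ← hm χ, H25.ipn_eq]
    field_simp
  have h2' : f = ∑ χ : Irr G, (m χ : ℂ) • (χ : G → ℂ) := by
    rw [← sub_eq_zero]
    apply irr_complete'
    · intro g h
      simp only [Pi.sub_apply, Finset.sum_apply, Pi.smul_apply, hf]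
      congr 1
      refine Finset.sum_congr rfl fun χ _ => ?_
      rw [irr_conj χ.2]
    · intro ψ hψ
      simp only [Pi.sub_apply, Finset.sum_apply, Pi.smul_apply, smul_eq_mul, sub_mul,
        Finset.sum_sub_distrib, Finset.sum_mul]
      rw [hm' ⟨ψ, hψ⟩, Finset.sum_comm, Finset.sum_eq_single_of_mem ⟨ψ, hψ⟩ (Finset.mem_univ _)]
      · simp_rw [mul_assoc]
        rw [← Finset.mul_sum, irr_orth_self hψ, sub_self]
      · intro χ _ hne
        simp_rw [mul_assoc]
        rw [← Finset.mul_sum, irr_orth_ne χ.2 hψ (fun h => hne (Subtype.ext h)), mul_zero]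
  have h2 : f = ∑ χ : Irr G, m χ • (χ : G → ℂ) := by
    rw [h2']
    exact Finset.sum_congr rfl fun χ _ => Int.cast_smul_eq_zsmul ℂ _ _
  have hnorm : (∑ χ : Irr G, m χ * m χ) = 1 := by
    have h3 := H11.ipn_comb (G := G) (S := Irr G) (fun _ h => h) m m
    rw [← h2, h1] at h3
    exact_mod_cast h3.symm
  obtain ⟨χ, hχ⟩ : ∃ χ : Irr G, m χ ≠ 0 := by
    by_contra hcon
    push Not at hcon
    simp [hcon] at hnorm
  have hsq : ∀ ψ : Irr G, 0 ≤ m ψ * m ψ := fun ψ => mul_self_nonneg _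
  have hpos : ∀ ψ : Irr G, m ψ ≠ 0 → 1 ≤ m ψ * m ψ := fun ψ h => by
    have : 0 < m ψ * m ψ := mul_self_pos.2 h
    omega
  have h4 : ∀ ψ : Irr G, ψ ≠ χ → m ψ = 0 := by
    intro ψ hne
    by_contra hψ
    have h3 : m χ * m χ + m ψ * m ψ ≤ 1 := by
      rw [← hnorm]
      calc m χ * m χ + m ψ * m ψ = ∑ x ∈ {χ, ψ}, m x * m x := by
            rw [Finset.sum_pair (Ne.symm hne)]
        _ ≤ _ := Finset.sum_le_sum_of_subset_of_nonneg (Finset.subset_univ _)
            fun x _ _ => hsq x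
    have := hpos χ hχ
    have := hpos ψ hψ
    omega
  have h5 : m χ * m χ = 1 := by
    rw [← hnorm, Finset.sum_eq_single_of_mem χ (Finset.mem_univ _)]
    intro ψ _ hne
    rw [h4 ψ hne, mul_zero]
  have h6 : f = m χ • (χ : G → ℂ) := by
    rw [h2, Finset.sum_eq_single_of_mem χ (Finset.mem_univ _)]
    intro ψ _ hne
    rw [h4 ψ hne, zero_smul]
  have h7 : m χ = 1 := by
    rcases mul_self_eq_one_iff.1 h5 with h | h
    · exact h
    · exfalso
      obtain ⟨d, hd⟩ := hp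
      obtain ⟨k, hk, hk'⟩ := irr_one χ.2
      rw [h6, Pi.smul_apply, hk', h] at hd
      have h8 : (((-1 : ℤ) * (k : ℤ) : ℤ) : ℂ) = ((d : ℤ) : ℂ) := by
        rw [zsmul_eq_mul] at hd
        push_cast at hd ⊢
        exact hd
      have h9 : (-1 : ℤ) * (k : ℤ) = (d : ℤ) := by exact_mod_cast h8
      omega
  rw [h6, h7, one_smul]
  exact χ.2

/-- the power map of degree prime to the order is a bijection -/
theorem pow_bij [Finite G] {N : ℕ} (hN : N.Coprime (Nat.card G)) :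
    Function.Bijective (fun g : G => g ^ N) :=
  (powCoprime hN.symm).bijective

theorem irr_pow (ada : AdaStmt) [Finite G] {N : ℕ} (hN : N.Coprime (Nat.card G)) {χ : G → ℂ}
    (hχ : χ ∈ Irr G) : (fun g => χ (g ^ N)) ∈ Irr G := by
  have := Fintype.ofFinite G
  refine irr_of_virtual (fun x y => ?_) (fun η hη => ?_) ?_ ?_
  · rw [conj_pow, irr_conj hχ]
  · exact ada G N χ (AddSubgroup.subset_closure hχ) η (AddSubgroup.subset_closure hη)
  · have h1 := H11.ipn_self hχ
    rw [H25.ipn_eq] at h1 ⊢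
    rw [← h1]
    congr 1
    exact Function.Bijective.sum_comp (pow_bij hN) (fun x => χ x * starRingEnd ℂ (χ x))
  · obtain ⟨d, -, hd⟩ := irr_one hχ
    exact ⟨d, by rw [one_pow, hd]⟩

end irr

/-- an idempotent vanishes at the singular elements -/
theorem idem_sing (wbo : WboStmt) (idm : KF.IdmStmt) (ℓ : ℕ) [Fact ℓ.Prime]
    (M : Ideal (integralClosure ℤ ℂ)) [M.IsMaximal] (hM : (ℓ : integralClosure ℤ ℂ) ∈ M)
    {G : Type} [Group G] [Finite G] (e : G → FF M) (he : IsIdem e) (x : G) (hx : ¬ Reg ℓ x) :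
    e x = 0 := by
  have := Fintype.ofFinite G
  have h1 := ((idm M G e he).1 x).2
  rw [H25.eh_sing wbo ℓ M hM e he x hx, rr_zero] at h1
  exact h1.symm

theorem reg_isConj {G : Type} [Group G] {ℓ : ℕ} {x y : G} (h : IsConj x y) (hx : Reg ℓ x) :
    Reg ℓ y := by
  obtain ⟨c, hc⟩ := isConj_iff.1 h
  unfold Reg at hx ⊢
  rw [← hc]
  have : orderOf (c * x * c⁻¹) = orderOf x :=
    orderOf_injective (MulAut.conj c).toMonoidHom (MulAut.conj c).injective x
  rw [this]
  exact hx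

/-- the general form -/
theorem rtc' (ada : AdaStmt) (wbo : WboStmt) (idm : KF.IdmStmt) (ℓ : ℕ) [Fact ℓ.Prime]
    (M : Ideal (integralClosure ℤ ℂ)) [M.IsMaximal] (hM : (ℓ : integralClosure ℤ ℂ) ∈ M)
    (G : Type) [Group G] [Finite G] (N : ℕ) (hN : N.Coprime (Nat.card G))
    (hreg : ∀ g : G, Reg ℓ g → g ^ N = g) (e : G → FF M) (he : IsIdem e) :
    (∀ χ ∈ Irr G, (fun g => χ (g ^ N)) ∈ Irr G) ∧
      ∀ χ ∈ IrrE M e, (fun g => χ (g ^ N)) ∈ IrrE M e := by
  refine ⟨fun χ hχ => irr_pow ada hN hχ, fun χ hχ => ⟨irr_pow ada hN hχ.1, ?_⟩⟩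
  rw [← hχ.2]
  unfold res
  refine finsum_congr fun c => ?_
  by_cases hc : Reg ℓ (Quotient.out c)
  · have h1 : omega (MonoidHom.id G) (fun g => χ (g ^ N)) (Quotient.out c) =
        omega (MonoidHom.id G) χ (Quotient.out c) := by
      have h2 : χ (1 ^ N) = χ 1 := by rw [one_pow]
      have h3 : (∑ᶠ (h : G) (_ : IsConj (Quotient.out c) (MonoidHom.id G h)), χ (h ^ N)) =
          ∑ᶠ (h : G) (_ : IsConj (Quotient.out c) (MonoidHom.id G h)), χ h :=
        finsum_congr fun h => finsum_congr fun hh => by rw [hreg h (reg_isConj hh hc)]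
      exact congrArg₂ (fun a b : ℂ => a / b) h3 h2
    rw [h1]
  · rw [idem_sing wbo idm ℓ M hM e he _ hc, zero_mul, zero_mul]

theorem rtc (ada : AdaStmt) (wbo : WboStmt) (idm : KF.IdmStmt) : RtcStmt := by
  intro ℓ _ M _ hM G _ _ N hN e he
  exact rtc' ada wbo idm ℓ M hM G N hN.cop hN.reg e he

end Pool.Agent.PP.T3.H23
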