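import Mathlib

/-!
# Squad AT3, row TRG: the core of the trace argument, over a local domain
-/

open scoped BigOperators

noncomputable section

namespace Pool.Agent.PP.T3.H23

section core

variable {R F : Type*} [CommRing R] [IsDomain R] [Field F] (r : R →+* F)
  {n : Type*} [Fintype n] [DecidableEq n]

theorem avg_comm {A : Type*} [Ring A] (V Y : A) (m : ℕ) (hV : V ^ m = 1) :
    V * ∑ k ∈ Finset.range m, V ^ k * Y * V ^ (m - k) =
      (∑ k ∈ Finset.range m, V ^ k * Y * V ^ (m - k)) * V := by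
  have h1 : V * ∑ k ∈ Finset.range m, V ^ k * Y * V ^ (m - k) =
      ∑ k ∈ Finset.range m, (fun k => V ^ k * Y * V ^ (m + 1 - k)) (k + 1) := by
    rw [Finset.mul_sum]
    refine Finset.sum_congr rfl fun k hk => ?_
    simp only [Nat.add_sub_add_right]
    rw [pow_succ' V k]
    simp only [mul_assoc]
  have h2 : (∑ k ∈ Finset.range m, V ^ k * Y * V ^ (m - k)) * V =
      ∑ k ∈ Finset.range m, (fun k => V ^ k * Y * V ^ (m + 1 - k)) k := by
    rw [Finset.sum_mul]
    refine Finset.sum_congr rfl fun k hk => ?_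
    have hk' := Finset.mem_range.1 hk
    simp only
    rw [show m + 1 - k = (m - k) + 1 by omega, pow_succ V (m - k)]
    simp only [mul_assoc]
  have h3 := Finset.sum_range_succ (fun k => V ^ k * Y * V ^ (m + 1 - k)) m
  have h4 := Finset.sum_range_succ' (fun k => V ^ k * Y * V ^ (m + 1 - k)) m
  have h5 : V ^ 0 * Y * V ^ (m + 1 - 0) = V ^ m * Y * V ^ (m + 1 - m) := by
    rw [show m + 1 - 0 = m + 1 by omega, show m + 1 - m = 1 by omega, pow_succ, hV]
    simp
  rw [h1, h2]
  rw [h3] at h4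
  rw [← h5] at h4
  exact (add_right_cancel h4).symm

omit [IsDomain R] in
theorem eig {A : Type*} [Ring A] [Algebra R A] (U W X : A) (l : ℕ) (ω : R)
    (hω : ω ^ l = 1) (hX : U ^ l * X * W ^ l = X) :
    U * (∑ i ∈ Finset.range l, ω ^ (l - i) • (U ^ i * X * W ^ i)) * W =
      ω • ∑ i ∈ Finset.range l, ω ^ (l - i) • (U ^ i * X * W ^ i) := by
  have h1 : U * (∑ i ∈ Finset.range l, ω ^ (l - i) • (U ^ i * X * W ^ i)) * W =
      ∑ i ∈ Finset.range l, (fun i => ω ^ (l + 1 - i) • (U ^ i * X * W ^ i)) (i + 1) := by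
    rw [Finset.mul_sum, Finset.sum_mul]
    refine Finset.sum_congr rfl fun i hi => ?_
    simp only [Nat.add_sub_add_right]
    rw [pow_succ' U i, pow_succ W i, mul_smul_comm, smul_mul_assoc]
    simp only [mul_assoc]
  have h2 : (ω • ∑ i ∈ Finset.range l, ω ^ (l - i) • (U ^ i * X * W ^ i)) =
      ∑ i ∈ Finset.range l, (fun i => ω ^ (l + 1 - i) • (U ^ i * X * W ^ i)) i := by
    rw [Finset.smul_sum]
    refine Finset.sum_congr rfl fun i hi => ?_
    have hi' := Finset.mem_range.1 hi
    simp only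
    rw [show l + 1 - i = (l - i) + 1 by omega, pow_succ' ω (l - i), smul_smul]
  have h3 := Finset.sum_range_succ (fun i => ω ^ (l + 1 - i) • (U ^ i * X * W ^ i)) l
  have h4 := Finset.sum_range_succ' (fun i => ω ^ (l + 1 - i) • (U ^ i * X * W ^ i)) l
  have h5 : ω ^ (l + 1 - 0) • (U ^ 0 * X * W ^ 0) = ω ^ (l + 1 - l) • (U ^ l * X * W ^ l) := by
    rw [show l + 1 - 0 = l + 1 by omega, show l + 1 - l = 1 by omega, pow_succ, hω, hX]
    simp
  rw [h1, h2]
  rw [h3] at h4
  rw [← h5] at h4
  exact (add_right_cancel h4).symm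

theorem trg_core (l : ℕ) (hloc : ∀ x, r x ≠ 0 → IsUnit x) (ω : R) (hω : ω ^ l = 1)
    (hω1 : ω ≠ 1) (hrω : r ω = 1) (P U W V X : Matrix n n R) (m : ℕ) (hr : r (m : R) ≠ 0)
    (hP : P * P = P) (hUW : U * W = 1) (hV : V ^ m = 1) (hUP : U * P = P * U) (hVP : V * P = P * V)
    (hUV : U * V = V * U) (hXU : X * U ^ l = U ^ l * X)
    (hs : r.mapMatrix P * (∑ i ∈ Finset.range l, r.mapMatrix U ^ i * r.mapMatrix X *
      r.mapMatrix W ^ i) * r.mapMatrix P = r.mapMatrix P) : (U * V * P).trace = 0 := by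
  have hWU : W * U = 1 := mul_eq_one_comm.1 hUW
  have hWP : W * P = P * W := by
    calc W * P = W * P * (U * W) := by rw [hUW, mul_one]
      _ = W * (P * U) * W := by simp only [mul_assoc]
      _ = W * (U * P) * W := by rw [hUP]
      _ = (W * U) * P * W := by simp only [mul_assoc]
      _ = P * W := by rw [hWU, one_mul]
  have hWV : W * V = V * W := by
    calc W * V = W * V * (U * W) := by rw [hUW, mul_one]
      _ = W * (V * U) * W := by simp only [mul_assoc]
      _ = W * (U * V) * W := by rw [hUV]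
      _ = (W * U) * V * W := by simp only [mul_assoc]
      _ = V * W := by rw [hWU, one_mul]
  have cUP : ∀ i, U ^ i * P = P * U ^ i := fun i => (Commute.pow_left (show Commute U P from hUP) i)
  have cWP : ∀ i, W ^ i * P = P * W ^ i := fun i => (Commute.pow_left (show Commute W P from hWP) i)
  have cVP : ∀ i, V ^ i * P = P * V ^ i := fun i => (Commute.pow_left (show Commute V P from hVP) i)
  have cUV : ∀ i j, U ^ i * V ^ j = V ^ j * U ^ i := fun i j =>
    (Commute.pow_pow (show Commute U V from hUV) i j)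
  have cWV : ∀ i j, W ^ i * V ^ j = V ^ j * W ^ i := fun i j =>
    (Commute.pow_pow (show Commute W V from hWV) i j)
  have hUWp : ∀ i, U ^ i * W ^ i = 1 := fun i => by
    rw [← (show Commute U W from hUW.trans hWU.symm).mul_pow, hUW, one_pow]
  obtain ⟨c, hc⟩ : ∃ c : R, c * (m : R) = 1 := by
    obtain ⟨u, hu⟩ := hloc _ hr
    exact ⟨(u⁻¹ : Rˣ), by rw [← hu]; simp⟩
  -- the average
  obtain ⟨Y, hYdef⟩ : ∃ Y, Y = P * X * P := ⟨_, rfl⟩
  have hYU : U ^ l * Y = Y * U ^ l := by
    calc U ^ l * Y = (U ^ l * P) * X * P := by rw [hYdef]; simp only [mul_assoc]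
      _ = P * (U ^ l * X) * P := by rw [cUP]; simp only [mul_assoc]
      _ = P * X * (U ^ l * P) := by rw [← hXU]; simp only [mul_assoc]
      _ = Y * U ^ l := by rw [cUP, hYdef]; simp only [mul_assoc]
  have hPY : P * Y = Y := by
    rw [hYdef, ← mul_assoc, ← mul_assoc, hP]
  have hYP : Y * P = Y := by
    rw [hYdef, mul_assoc, hP]
  obtain ⟨X₁, hX₁⟩ : ∃ X₁, X₁ = c • ∑ k ∈ Finset.range m, V ^ k * Y * V ^ (m - k) := ⟨_, rfl⟩
  have hVX : V * X₁ = X₁ * V := by
    rw [hX₁, mul_smul_comm, smul_mul_assoc, avg_comm V Y m hV]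
  have hUX : U ^ l * X₁ = X₁ * U ^ l := by
    rw [hX₁, mul_smul_comm, smul_mul_assoc, Finset.mul_sum, Finset.sum_mul]
    congr 1
    refine Finset.sum_congr rfl fun k _ => ?_
    calc U ^ l * (V ^ k * Y * V ^ (m - k)) = (U ^ l * V ^ k) * Y * V ^ (m - k) := by
          simp only [mul_assoc]
      _ = V ^ k * (U ^ l * Y) * V ^ (m - k) := by rw [cUV]; simp only [mul_assoc]
      _ = V ^ k * Y * (U ^ l * V ^ (m - k)) := by rw [hYU]; simp only [mul_assoc]
      _ = V ^ k * Y * V ^ (m - k) * U ^ l := by rw [cUV]; simp only [mul_assoc]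
  have hPX : P * X₁ = X₁ := by
    rw [hX₁, mul_smul_comm, Finset.mul_sum]
    congr 1
    refine Finset.sum_congr rfl fun k _ => ?_
    calc P * (V ^ k * Y * V ^ (m - k)) = (P * V ^ k) * Y * V ^ (m - k) := by
          simp only [mul_assoc]
      _ = V ^ k * (P * Y) * V ^ (m - k) := by rw [← cVP]; simp only [mul_assoc]
      _ = V ^ k * Y * V ^ (m - k) := by rw [hPY]
  have hXP : X₁ * P = X₁ := by
    rw [hX₁, smul_mul_assoc, Finset.sum_mul]
    congr 1
    refine Finset.sum_congr rfl fun k _ => ?_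
    calc V ^ k * Y * V ^ (m - k) * P = V ^ k * (Y * P) * V ^ (m - k) := by
          rw [mul_assoc, cVP]; simp only [mul_assoc]
      _ = V ^ k * Y * V ^ (m - k) := by rw [hYP]
  -- the eigenvector
  have hXl : U ^ l * X₁ * W ^ l = X₁ := by
    rw [hUX, mul_assoc, hUWp, mul_one]
  obtain ⟨φ, hφ⟩ : ∃ φ, φ = ∑ i ∈ Finset.range l, ω ^ (l - i) • (U ^ i * X₁ * W ^ i) := ⟨_, rfl⟩
  have hUφ : U * φ = ω • (φ * U) := by
    have h := eig U W X₁ l ω hω hXl
    rw [← hφ] at h
    calc U * φ = U * φ * (W * U) := by rw [hWU, mul_one]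
      _ = (U * φ * W) * U := by simp only [mul_assoc]
      _ = ω • (φ * U) := by rw [h, smul_mul_assoc]
  have hVφ : V * φ = φ * V := by
    rw [hφ, Finset.mul_sum, Finset.sum_mul]
    refine Finset.sum_congr rfl fun i _ => ?_
    rw [mul_smul_comm, smul_mul_assoc]
    congr 1
    have e1 := cUV i 1
    have e2 := cWV i 1
    rw [pow_one] at e1 e2
    calc V * (U ^ i * X₁ * W ^ i) = (V * U ^ i) * X₁ * W ^ i := by simp only [mul_assoc]
      _ = U ^ i * (V * X₁) * W ^ i := by rw [← e1]; simp only [mul_assoc]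
      _ = U ^ i * X₁ * (V * W ^ i) := by rw [hVX]; simp only [mul_assoc]
      _ = U ^ i * X₁ * W ^ i * V := by rw [← e2]; simp only [mul_assoc]
  have hPφ : P * φ = φ := by
    rw [hφ, Finset.mul_sum]
    refine Finset.sum_congr rfl fun i _ => ?_
    rw [mul_smul_comm]
    congr 1
    calc P * (U ^ i * X₁ * W ^ i) = (P * U ^ i) * X₁ * W ^ i := by simp only [mul_assoc]
      _ = U ^ i * (P * X₁) * W ^ i := by rw [← cUP]; simp only [mul_assoc]
      _ = U ^ i * X₁ * W ^ i := by rw [hPX]
  have hφP : φ * P = φ := by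
    rw [hφ, Finset.sum_mul]
    refine Finset.sum_congr rfl fun i _ => ?_
    rw [smul_mul_assoc]
    congr 1
    calc U ^ i * X₁ * W ^ i * P = U ^ i * (X₁ * P) * W ^ i := by
          rw [mul_assoc, cWP]; simp only [mul_assoc]
      _ = U ^ i * X₁ * W ^ i := by rw [hXP]
  -- the residue
  have hres : r.mapMatrix φ = r.mapMatrix P := by
    have rsm : ∀ (a : R) (A : Matrix n n R), r.mapMatrix (a • A) = r a • r.mapMatrix A := by
      intro a A
      ext i j
      simp
    have e1 : r.mapMatrix X₁ = r c • ∑ k ∈ Finset.range m, r.mapMatrix V ^ k *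
        (r.mapMatrix P * r.mapMatrix X * r.mapMatrix P) * r.mapMatrix V ^ (m - k) := by
      rw [hX₁, rsm, map_sum, hYdef]
      simp only [map_mul, map_pow]
    have e2 : r.mapMatrix φ = ∑ i ∈ Finset.range l, r.mapMatrix U ^ i * r.mapMatrix X₁ *
        r.mapMatrix W ^ i := by
      rw [hφ, map_sum]
      refine Finset.sum_congr rfl fun i _ => ?_
      rw [rsm, map_pow, hrω, one_pow, one_smul]
      simp only [map_mul, map_pow]
    have fUV : ∀ i j, r.mapMatrix U ^ i * r.mapMatrix V ^ j =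
        r.mapMatrix V ^ j * r.mapMatrix U ^ i := fun i j => by
      rw [← map_pow, ← map_pow, ← map_mul, cUV, map_mul]
    have fWV : ∀ i j, r.mapMatrix W ^ i * r.mapMatrix V ^ j =
        r.mapMatrix V ^ j * r.mapMatrix W ^ i := fun i j => by
      rw [← map_pow, ← map_pow, ← map_mul, cWV, map_mul]
    have fUP : ∀ i, r.mapMatrix U ^ i * r.mapMatrix P = r.mapMatrix P * r.mapMatrix U ^ i :=
      fun i => by rw [← map_pow, ← map_mul, cUP, map_mul]
    have fWP : ∀ i, r.mapMatrix W ^ i * r.mapMatrix P = r.mapMatrix P * r.mapMatrix W ^ i :=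
      fun i => by rw [← map_pow, ← map_mul, cWP, map_mul]
    have fVP : ∀ i, r.mapMatrix V ^ i * r.mapMatrix P = r.mapMatrix P * r.mapMatrix V ^ i :=
      fun i => by rw [← map_pow, ← map_mul, cVP, map_mul]
    have fV : r.mapMatrix V ^ m = 1 := by rw [← map_pow, hV, map_one]
    have fc : r c * (m : F) = 1 := by
      have := congrArg r hc
      rwa [map_mul, map_natCast, map_one] at this
    generalize r.mapMatrix P = p at *
    generalize r.mapMatrix U = u at *
    generalize r.mapMatrix V = v at *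
    generalize r.mapMatrix W = w at *
    generalize r.mapMatrix X = x at *
    have e3 : ∀ i k, u ^ i * (v ^ k * (p * x * p) * v ^ (m - k)) * w ^ i =
        v ^ k * (p * (u ^ i * x * w ^ i) * p) * v ^ (m - k) := by
      intro i k
      calc u ^ i * (v ^ k * (p * x * p) * v ^ (m - k)) * w ^ i
          = (u ^ i * v ^ k) * (p * x * p) * (v ^ (m - k) * w ^ i) := by simp only [mul_assoc]
        _ = v ^ k * (u ^ i * p) * x * (p * w ^ i) * v ^ (m - k) := by
            rw [fUV, ← fWV]; simp only [mul_assoc]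
        _ = v ^ k * (p * (u ^ i * x * w ^ i) * p) * v ^ (m - k) := by
            rw [fUP, ← fWP]; simp only [mul_assoc]
    calc r.mapMatrix φ = ∑ i ∈ Finset.range l, r c • ∑ k ∈ Finset.range m,
          v ^ k * (p * (u ^ i * x * w ^ i) * p) * v ^ (m - k) := by
          rw [e2]
          refine Finset.sum_congr rfl fun i _ => ?_
          rw [e1, mul_smul_comm, smul_mul_assoc, Finset.mul_sum, Finset.sum_mul]
          congr 1
          exact Finset.sum_congr rfl fun k _ => e3 i k
      _ = r c • ∑ k ∈ Finset.range m, v ^ k * (p * (∑ i ∈ Finset.range l, u ^ i * x * w ^ i) * p) *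
          v ^ (m - k) := by
          rw [← Finset.smul_sum, Finset.sum_comm]
          congr 1
          refine Finset.sum_congr rfl fun k _ => ?_
          rw [Finset.mul_sum, Finset.sum_mul, Finset.mul_sum, Finset.sum_mul]
      _ = r c • ∑ k ∈ Finset.range m, p := by
          congr 1
          refine Finset.sum_congr rfl fun k hk => ?_
          have hk' := Finset.mem_range.1 hk
          rw [hs, fVP, mul_assoc, ← pow_add, show k + (m - k) = m by omega, fV, mul_one]
      _ = p := by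
          rw [Finset.sum_const, Finset.card_range, ← Nat.cast_smul_eq_nsmul F, smul_smul, fc,
            one_smul]
  -- the unit
  obtain ⟨Z, hZ⟩ : ∃ Z, Z = φ + 1 - P := ⟨_, rfl⟩
  have hZr : r.mapMatrix Z = 1 := by
    rw [hZ, map_sub, map_add, hres, map_one]
    abel
  have hdet : IsUnit Z.det := by
    refine hloc _ ?_
    rw [RingHom.map_det, hZr, Matrix.det_one]
    exact one_ne_zero
  have hZi : Z * Z⁻¹ = 1 := Matrix.mul_nonsing_inv Z hdet
  have hiZ : Z⁻¹ * Z = 1 := Matrix.nonsing_inv_mul Z hdet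
  have hPZ : P * Z = φ := by
    rw [hZ, mul_sub, mul_add, hPφ, mul_one, hP]
    abel
  have hZP : Z * P = φ := by
    rw [hZ, sub_mul, add_mul, hφP, one_mul, hP]
    abel
  have h1 : φ * Z⁻¹ = P := by
    rw [← hPZ, mul_assoc, hZi, mul_one]
  have h2 : Z⁻¹ * φ = P := by
    rw [← hZP, ← mul_assoc, hiZ, one_mul]
  have h3 : U * V * P = ω • (φ * (U * V) * Z⁻¹) := by
    calc U * V * P = U * (V * φ) * Z⁻¹ := by rw [← h1]; simp only [mul_assoc]
      _ = (U * φ) * V * Z⁻¹ := by rw [hVφ]; simp only [mul_assoc]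
      _ = ω • (φ * (U * V) * Z⁻¹) := by
          rw [hUφ, smul_mul_assoc, smul_mul_assoc]
          simp only [mul_assoc]
  have h4 : (U * V * P).trace = ω * (U * V * P).trace := by
    have e1 : (φ * (U * V) * Z⁻¹).trace = (U * V * P).trace := by
      rw [Matrix.trace_mul_comm, ← mul_assoc, h2]
      rw [show P * (U * V) = U * V * P from by
        rw [← mul_assoc, ← hUP, mul_assoc, ← hVP, ← mul_assoc]]
    calc (U * V * P).trace = (ω • (φ * (U * V) * Z⁻¹)).trace := by rw [← h3]
      _ = ω * (U * V * P).trace := by rw [Matrix.trace_smul, e1, smul_eq_mul]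
  have h5 : (1 - ω) * (U * V * P).trace = 0 := by
    rw [sub_mul, one_mul, ← h4, sub_self]
  rcases mul_eq_zero.1 h5 with h | h
  · exact absurd (sub_eq_zero.1 h).symm hω1
  · exact h

end core

end Pool.Agent.PP.T3.H23
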