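import Pool.Agent.AT3.Stmts1
import Pool.Agent.Helper50_PP.Ffa
import Pool.Agent.Helper23_AT3.TrgCore

/-!
# Squad AT3, row TRG
-/

open scoped BigOperators

noncomputable section

namespace Pool.Agent.PP.T3.H23

open Pool.Agent.Helper51_AWC Pool.Agent.Helper79_WRA Pool.Agent.PP Pool.Agent.PP.KF
open Pool.Agent.PP.K9 Pool.Agent.PP.K9.H97 Pool.Agent.PP.H75

attribute [local instance] Ideal.Quotient.field

theorem trg : TrgStmt := by
  intro ℓ hℓF M _ hℓ n _ _ P U W V X m hm hmℓ hPi hUi hWi hVi hXi hPP hUW hV hUP hVP hUV hXU hs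
  have hp : ℓ.Prime := hℓF.out
  -- the matrices over the local ring
  let P' : Matrix n n (RM M) := Matrix.of fun i j => ⟨P i j, hPi i j⟩
  let U' : Matrix n n (RM M) := Matrix.of fun i j => ⟨U i j, hUi i j⟩
  let W' : Matrix n n (RM M) := Matrix.of fun i j => ⟨W i j, hWi i j⟩
  let V' : Matrix n n (RM M) := Matrix.of fun i j => ⟨V i j, hVi i j⟩
  let X' : Matrix n n (RM M) := Matrix.of fun i j => ⟨X i j, hXi i j⟩
  let s : Matrix n n (RM M) →+* Matrix n n ℂ := (RM M).subtype.mapMatrix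
  have sinj : Function.Injective s := by
    intro A B h
    ext i j
    exact congrFun (congrFun h i) j
  have sP : s P' = P := by ext i j; rfl
  have sU : s U' = U := by ext i j; rfl
  have sW : s W' = W := by ext i j; rfl
  have sV : s V' = V := by ext i j; rfl
  have sX : s X' = X := by ext i j; rfl
  have rP : (rrHom M).mapMatrix P' = P.map (rr M) := by ext i j; rfl
  have rU : (rrHom M).mapMatrix U' = U.map (rr M) := by ext i j; rfl
  have rW : (rrHom M).mapMatrix W' = W.map (rr M) := by ext i j; rfl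
  have rX : (rrHom M).mapMatrix X' = X.map (rr M) := by ext i j; rfl
  have hloc : ∀ x : RM M, rrHom M x ≠ 0 → IsUnit x := by
    intro x hx
    obtain ⟨h1, h2⟩ := inv_RM x.2 hx
    refine isUnit_iff_exists_inv.2 ⟨⟨_, h1⟩, ?_⟩
    apply Subtype.ext
    exact mul_inv_cancel₀ h2
  -- the root of unity
  have hprim := Complex.isPrimitiveRoot_exp ℓ hp.ne_zero
  obtain ⟨ω, hω⟩ : ∃ ω, ω = Complex.exp (2 * Real.pi * Complex.I / ℓ) := ⟨_, rfl⟩
  rw [← hω] at hprim
  have hωi : IsIntegral ℤ ω := hprim.isIntegral hp.pos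
  let ω' : RM M := ⟨ω, RM_of_int hωi⟩
  have h1 : ω' ^ ℓ = 1 := by
    apply Subtype.ext
    exact hprim.pow_eq_one
  have h2 : ω' ≠ 1 := by
    intro h
    exact hprim.ne_one hp.one_lt (congrArg Subtype.val h)
  have : CharP (FF M) ℓ := H50.charP_ff ℓ hp M hℓ
  have h3 : rrHom M ω' = 1 := by
    have e1 : rrHom M ω' ^ ℓ = 1 := by
      rw [← map_pow, h1, map_one]
    have e2 : (rrHom M ω' - 1) ^ ℓ = 0 := by
      rw [sub_pow_char, e1, one_pow, sub_self]
    exact sub_eq_zero.1 (pow_eq_zero_iff hp.ne_zero |>.1 e2)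
  have h4 : rrHom M (m : RM M) ≠ 0 := by
    rw [map_natCast]
    intro h
    exact hmℓ ((CharP.cast_eq_zero_iff (FF M) ℓ m).1 h)
  have key := trg_core (rrHom M) ℓ hloc ω' h1 h2 h3 P' U' W' V' X' m h4
    (sinj (by rw [map_mul, sP, hPP])) (sinj (by rw [map_mul, sU, sW, hUW, map_one]))
    (sinj (by rw [map_pow, sV, hV, map_one])) (sinj (by rw [map_mul, map_mul, sU, sP, hUP]))
    (sinj (by rw [map_mul, map_mul, sV, sP, hVP])) (sinj (by rw [map_mul, map_mul, sU, sV, hUV]))
    (sinj (by rw [map_mul, map_mul, map_pow, sU, sX, hXU]))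
    (by rw [rP, rU, rW, rX]; exact hs)
  have h5 : (U * V * P).trace = (RM M).subtype (U' * V' * P').trace := by
    rw [← sP, ← sU, ← sV, ← map_mul, ← map_mul]
    exact (AddMonoidHom.map_trace (RM M).subtype (U' * V' * P')).symm
  rw [h5, key, map_zero]

end Pool.Agent.PP.T3.H23
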